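import Pool.Agent.H7.LT.Add
import Pool.Graph.R_seed8.W322.GT.Attach

/-!
MP_128071_co, smallest graceful tree containing a given tree: trees with many leaves at each
non-leaf, in number independent of the size of the tree.

Let `Δ ≥ 1` and let `T` be a finite tree in which each non-leaf is adjacent to at most `Δ`
non-leaves. If each non-leaf is adjacent to at least `2 * 10 ^ 10 * Δ ^ 16` leaves, then `T` is
graceful, so `γ(T) = |E(T)|`. In general `γ(T)` is at most `|E(T)|` plus the sum over the non-leaves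
of the leaf deficits `2 * 10 ^ 10 * Δ ^ 16 - (number of leaves at x)` (truncated at `0`).
-/

namespace Pool.Agent.Results.MP_128071_co.LeafyTrees

open Pool.Agent.W322.GT (addLeaves)

/-- A graph with `m` edges is graceful if there is an injective map `f` of the vertices to
`{0, 1, …, m}` such that the edge labels `|f u - f v|` are exactly `1, …, m`. -/
def Graceful {V : Type} (T : SimpleGraph V) : Prop :=
  ∃ f : V → ℕ, Function.Injective f ∧ (∀ v, f v ≤ T.edgeSet.ncard) ∧
    {d : ℕ | ∃ u v : V, T.Adj u v ∧ d = Int.natAbs ((f u : ℤ) - (f v : ℤ))} =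
      Set.Icc 1 T.edgeSet.ncard

/-- The numbers of edges of the finite graceful trees which have a subgraph isomorphic to `T`. -/
def gracefulSizes {V : Type} (T : SimpleGraph V) : Set ℕ :=
  {k | ∃ (W : Type) (_ : Fintype W) (T' : SimpleGraph W),
    T'.IsTree ∧ Graceful T' ∧ T.IsContained T' ∧ T'.edgeSet.ncard = k}

/-- `γ(T)`: the least number of edges of a graceful tree which has a subgraph isomorphic to `T`. -/
noncomputable def gamma {V : Type} (T : SimpleGraph V) : ℕ := sInf (gracefulSizes T)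

theorem le_of_mem {V : Type} {T : SimpleGraph V} {k : ℕ}
    (hk : k ∈ gracefulSizes T) : T.edgeSet.ncard ≤ k := by
  classical
  obtain ⟨W, _, T', _, _, ⟨φ⟩, rfl⟩ := hk
  have hinj : Function.Injective φ := φ.injective
  have h1 : Sym2.map φ '' T.edgeSet ⊆ T'.edgeSet := by
    rintro _ ⟨e, he, rfl⟩
    induction e using Sym2.ind with
    | _ x y =>
      rw [Sym2.map_mk, SimpleGraph.mem_edgeSet]
      exact φ.toHom.map_adj ((SimpleGraph.mem_edgeSet T).1 he)
  calc T.edgeSet.ncard = (Sym2.map φ '' T.edgeSet).ncard :=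
        (Set.ncard_image_of_injective _ (Sym2.map.injective hinj)).symm
    _ ≤ T'.edgeSet.ncard := Set.ncard_le_ncard h1 (Set.toFinite _)

/-- The non-leaves of `T` are the vertices with at least two neighbours (the vertices with exactly
one neighbour are the leaves), and `addLeaves T k` is the tree `T` with `k x` new vertices joined to
each vertex `x`. -/
theorem result (V : Type) [Fintype V] (T : SimpleGraph V) (hT : T.IsTree) (Δ : ℕ) (hΔ : 1 ≤ Δ)
    (hdeg : ∀ x : V, 2 ≤ (T.neighborSet x).ncard →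
      {y : V | T.Adj x y ∧ 2 ≤ (T.neighborSet y).ncard}.ncard ≤ Δ) :
    ((∀ x : V, 2 ≤ (T.neighborSet x).ncard →
        2 * 10 ^ 10 * Δ ^ 16 ≤ {y : V | T.Adj x y ∧ (T.neighborSet y).ncard = 1}.ncard) →
      Graceful T ∧ gamma T = T.edgeSet.ncard) ∧
    (∀ k : V → ℕ, (∀ x, ¬ 2 ≤ (T.neighborSet x).ncard → k x = 0) →
      (∀ x, 2 ≤ (T.neighborSet x).ncard →
        2 * 10 ^ 10 * Δ ^ 16 ≤ {y : V | T.Adj x y ∧ (T.neighborSet y).ncard = 1}.ncard + k x) →
      (addLeaves T k).IsTree ∧ Graceful (addLeaves T k) ∧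
        (addLeaves T k).edgeSet.ncard = T.edgeSet.ncard + ∑ x, k x) ∧
    gamma T ∈ gracefulSizes T ∧
    T.edgeSet.ncard ≤ gamma T ∧
    gamma T ≤ T.edgeSet.ncard + ∑ x ∈ (Set.toFinite {x : V | 2 ≤ (T.neighborSet x).ncard}).toFinset,
      (2 * 10 ^ 10 * Δ ^ 16 - {y : V | T.Adj x y ∧ (T.neighborSet y).ncard = 1}.ncard) := by
  classical
  have main : ∀ k : V → ℕ, (∀ x, ¬ 2 ≤ (T.neighborSet x).ncard → k x = 0) →
      (∀ x, 2 ≤ (T.neighborSet x).ncard →
        2 * 10 ^ 10 * Δ ^ 16 ≤ {y : V | T.Adj x y ∧ (T.neighborSet y).ncard = 1}.ncard + k x) →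
      (addLeaves T k).IsTree ∧ Graceful (addLeaves T k) ∧
        (addLeaves T k).edgeSet.ncard = T.edgeSet.ncard + ∑ x, k x := by
    intro k hk0 hk
    obtain ⟨h1, h2⟩ := Pool.Agent.H7.LT.addLeaves_tree hT k
    exact ⟨h1, Pool.Agent.H7.LT.leafy_add hT hΔ hdeg k hk0 hk, h2⟩
  obtain ⟨s, hs, hle⟩ : ∃ s ∈ gracefulSizes T, s ≤ T.edgeSet.ncard +
      ∑ x ∈ (Set.toFinite {x : V | 2 ≤ (T.neighborSet x).ncard}).toFinset,
        (2 * 10 ^ 10 * Δ ^ 16 - {y : V | T.Adj x y ∧ (T.neighborSet y).ncard = 1}.ncard) := by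
    obtain ⟨h1, h2, h3⟩ := main (fun x => if 2 ≤ (T.neighborSet x).ncard then
      2 * 10 ^ 10 * Δ ^ 16 - {y : V | T.Adj x y ∧ (T.neighborSet y).ncard = 1}.ncard else 0)
      (fun x hx => by simp only [if_neg hx]) (fun x hx => by
        simp only [if_pos hx]
        omega)
    refine ⟨_, ⟨_, inferInstance, _, h1, h2, Pool.Agent.W322.GT.addLeaves_contains T _, rfl⟩, ?_⟩
    rw [h3]
    apply Nat.add_le_add_left
    rw [← Finset.sum_filter]
    apply le_of_eq
    apply Finset.sum_congr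
    · ext x
      simp
    · intro x _
      rfl
  have hmem : gamma T ∈ gracefulSizes T := Nat.sInf_mem ⟨s, hs⟩
  refine ⟨fun hl => ?_, main, hmem, le_of_mem hmem, (Nat.sInf_le hs).trans hle⟩
  have hg : Graceful T := Pool.Agent.H7.LT.leafy_all hT hΔ hdeg hl
  refine ⟨hg, le_antisymm (Nat.sInf_le ?_) (le_of_mem hmem)⟩
  exact ⟨V, inferInstance, T, hT, hg, SimpleGraph.IsContained.refl T, rfl⟩

end Pool.Agent.Results.MP_128071_co.LeafyTrees
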